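import Pool.Agent.Helper63.TH.Goals

set_option autoImplicit false

namespace Pool.Agent.Helper4.TH

open MeasureTheory Set Filter Topology
open Pool.Agent.Helper53.PT
open Pool.Agent.Helper63.TH

theorem gVP : GVP := by
  intro θ h0 h1
  have hp := (aPAIR h0 h1 (a := 1 / 2) (b := 1 / 2) (by norm_num) (by norm_num)).2
  have hV : V θ 2 = ∫ ξ in Ioi (0 : ℝ), (1 - f0 θ (1 / 2 * ξ ^ 2) * f0 θ (1 / 2 * ξ ^ 2)) / ξ ^ 2 := by
    simp only [V, G, PP, Fin.prod_univ_two, Nat.cast_ofNat]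
  rw [hV, hp, P]
  have h2 : ((1 / 2 : ℝ) ^ (1 / (2 * θ)) + (1 / 2 : ℝ) ^ (1 / (2 * θ))) ^ θ = (2 : ℝ) ^ (θ - 1 / 2) := by
    have e1 : (1 / 2 : ℝ) ^ (1 / (2 * θ)) = (2 : ℝ) ^ (-(1 / (2 * θ))) := by
      rw [Real.rpow_neg (by norm_num), one_div (2 : ℝ), Real.inv_rpow (by norm_num)]
    rw [← two_mul, e1]
    have e2 : (2 : ℝ) * (2 : ℝ) ^ (-(1 / (2 * θ))) = (2 : ℝ) ^ (1 - 1 / (2 * θ)) := by
      rw [sub_eq_add_neg, Real.rpow_add (by norm_num), Real.rpow_one]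
    rw [e2, ← Real.rpow_mul (by norm_num)]
    congr 1
    field_simp
  rw [h2]
  ring

end Pool.Agent.Helper4.TH
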